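import Mathlib

/-!
Three vessels: the largest total `h(N,3)` for which every state can be emptied in `N` pouring
steps satisfies `5 * 2^(N-1) ≤ h(N,3) < 6 * 2^(N-1)` for every `N ≥ 1`.
-/

namespace Pool.Agent.Results.MP_4ebd9a_co.WithinSixFifths

/-- One pouring step: pick `i ≠ j` with `s i ≤ s j`, double vessel `i` from vessel `j`. -/
def Step (s t : Fin 3 → ℕ) : Prop :=
  ∃ i j : Fin 3, i ≠ j ∧ s i ≤ s j ∧
    t = Function.update (Function.update s i (2 * s i)) j (s j - s i)

/-- At most `p` pouring steps lead from `s` to a state with an empty vessel. -/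
def Pourable : ℕ → (Fin 3 → ℕ) → Prop
  | 0, s => ∃ i, s i = 0
  | p + 1, s => (∃ i, s i = 0) ∨ ∃ t, Step s t ∧ Pourable p t

/-- Positive totals `n` for which every state of three positive integers is `N`-pourable. -/
def Good (N : ℕ) : Set ℕ :=
  {n | 0 < n ∧ ∀ s : Fin 3 → ℕ, (∀ i, 0 < s i) → s 0 + s 1 + s 2 = n → Pourable N s}

/-- `h(N,3)`. -/
noncomputable def h (N : ℕ) : ℕ := sSup (Good N)

lemma pourable_of_zero {p : ℕ} {s : Fin 3 → ℕ} (hz : ∃ i, s i = 0) : Pourable p s := by
  cases p with
  | zero => exact hz
  | succ p => exact Or.inl hz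

lemma pourable_succ {p : ℕ} {s : Fin 3 → ℕ} (hp : Pourable p s) : Pourable (p + 1) s := by
  induction p generalizing s with
  | zero => exact Or.inl hp
  | succ p ih =>
    rcases hp with hz | ⟨t, hst, ht⟩
    · exact Or.inl hz
    · exact Or.inr ⟨t, hst, ih ht⟩

lemma step_double {s t : Fin 3 → ℕ} (h : Step s t) :
    Step (fun i => 2 * s i) (fun i => 2 * t i) := by
  obtain ⟨i, j, hij, hle, rfl⟩ := h
  refine ⟨i, j, hij, by dsimp only; omega, ?_⟩
  funext l
  by_cases hl : l = j
  · subst hl
    simp only [Function.update_self]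
    omega
  · by_cases hi : l = i
    · subst hi
      simp [Function.update_of_ne hl]
    · simp [Function.update_of_ne hl, Function.update_of_ne hi]

lemma pourable_double {p : ℕ} {s : Fin 3 → ℕ} (hp : Pourable p s) :
    Pourable p (fun i => 2 * s i) := by
  induction p generalizing s with
  | zero =>
    obtain ⟨i, hi⟩ := hp
    exact ⟨i, by simp [hi]⟩
  | succ p ih =>
    rcases hp with ⟨i, hi⟩ | ⟨t, hst, ht⟩
    · exact Or.inl ⟨i, by simp [hi]⟩
    · exact Or.inr ⟨_, step_double hst, ih ht⟩

lemma step_sum {s t : Fin 3 → ℕ} (h : Step s t) : t 0 + t 1 + t 2 = s 0 + s 1 + s 2 := by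
  obtain ⟨i, j, hij, hle, rfl⟩ := h
  fin_cases i <;> fin_cases j <;> simp_all [Function.update] <;> omega

/-- An all-even state whose half is pourable is pourable. -/
lemma pourable_of_half {p : ℕ} {s : Fin 3 → ℕ} (he : ∀ i, s i % 2 = 0)
    (hp : Pourable p (fun i => s i / 2)) : Pourable p s := by
  have := pourable_double hp
  have e : (fun i => 2 * (s i / 2)) = s := by
    funext i
    have := he i
    omega
  rwa [e] at this

lemma lower (k : ℕ) : ∀ s : Fin 3 → ℕ, s 0 + s 1 + s 2 = 5 * 2 ^ k → Pourable (k + 1) s := by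
  induction k with
  | zero =>
    intro s hs
    by_cases hz : ∃ i, s i = 0
    · exact pourable_of_zero hz
    have h0 : 0 < s 0 := Nat.pos_of_ne_zero fun e => hz ⟨0, e⟩
    have h1 : 0 < s 1 := Nat.pos_of_ne_zero fun e => hz ⟨1, e⟩
    have h2 : 0 < s 2 := Nat.pos_of_ne_zero fun e => hz ⟨2, e⟩
    have hs' : s 0 + s 1 + s 2 = 5 := by simpa using hs
    have key : ∃ i j : Fin 3, i ≠ j ∧ s i = s j := by
      by_cases h01 : s 0 = s 1
      · exact ⟨0, 1, by decide, h01⟩
      by_cases h02 : s 0 = s 2
      · exact ⟨0, 2, by decide, h02⟩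
      exact ⟨1, 2, by decide, by omega⟩
    obtain ⟨i, j, hij, he⟩ := key
    refine Or.inr ⟨_, ⟨i, j, hij, he.le, rfl⟩, j, ?_⟩
    simp [he]
  | succ k ih =>
    intro s hs
    have hev : (s 0 + s 1 + s 2) % 2 = 0 := by
      rw [hs, pow_succ]; omega
    by_cases hall : ∀ i, s i % 2 = 0
    · have h0 := hall 0
      have h1 := hall 1
      have h2 := hall 2
      refine pourable_succ (pourable_of_half hall (ih _ ?_))
      rw [pow_succ] at hs
      omega
    · -- exactly two odd entries
      have key : ∃ i j : Fin 3, i ≠ j ∧ s i ≤ s j ∧ s i % 2 = 1 ∧ s j % 2 = 1 ∧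
          ∀ l, l ≠ i → l ≠ j → s l % 2 = 0 := by
        by_cases p0 : s 0 % 2 = 0
        · have p1 : s 1 % 2 = 1 := by
            by_contra hc
            apply hall
            intro i
            fin_cases i <;> simp <;> omega
          have p2 : s 2 % 2 = 1 := by omega
          rcases le_total (s 1) (s 2) with hle | hle
          · refine ⟨1, 2, by decide, hle, p1, p2, ?_⟩
            intro l hl1 hl2
            fin_cases l <;> simp_all
          · refine ⟨2, 1, by decide, hle, p2, p1, ?_⟩
            intro l hl1 hl2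
            fin_cases l <;> simp_all
        · have p0' : s 0 % 2 = 1 := by omega
          by_cases p1 : s 1 % 2 = 0
          · have p2 : s 2 % 2 = 1 := by omega
            rcases le_total (s 0) (s 2) with hle | hle
            · refine ⟨0, 2, by decide, hle, p0', p2, ?_⟩
              intro l hl1 hl2
              fin_cases l <;> simp_all
            · refine ⟨2, 0, by decide, hle, p2, p0', ?_⟩
              intro l hl1 hl2
              fin_cases l <;> simp_all
          · have p1' : s 1 % 2 = 1 := by omega
            have p2 : s 2 % 2 = 0 := by omega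
            rcases le_total (s 0) (s 1) with hle | hle
            · refine ⟨0, 1, by decide, hle, p0', p1', ?_⟩
              intro l hl1 hl2
              fin_cases l <;> simp_all
            · refine ⟨1, 0, by decide, hle, p1', p0', ?_⟩
              intro l hl1 hl2
              fin_cases l <;> simp_all
      obtain ⟨i, j, hij, hle, oi, oj, hl⟩ := key
      have hst : Step s (Function.update (Function.update s i (2 * s i)) j (s j - s i)) :=
        ⟨i, j, hij, hle, rfl⟩
      refine Or.inr ⟨_, hst, ?_⟩
      have hsum := step_sum hst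
      set t := Function.update (Function.update s i (2 * s i)) j (s j - s i) with ht
      have hte : ∀ l, t l % 2 = 0 := by
        intro l
        by_cases h1 : l = j
        · subst h1
          rw [ht, Function.update_self]
          omega
        · by_cases h2 : l = i
          · subst h2
            rw [ht, Function.update_of_ne h1, Function.update_self]
            omega
          · rw [ht, Function.update_of_ne h1, Function.update_of_ne h2]
            exact hl l h2 h1
      have h0 := hte 0
      have h1 := hte 1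
      have h2 := hte 2
      refine pourable_of_half hte (ih _ ?_)
      rw [hs, pow_succ] at hsum
      omega

/-- The invariant of the bad state. -/
def Inv (n t : ℕ) (s : Fin 3 → ℕ) : Prop :=
  ∃ i j k : Fin 3, i ≠ j ∧ i ≠ k ∧ j ≠ k ∧ s i + s j + s k = n ∧
    ((s i = 2 ^ t ∧ -2 * (2 ^ t : ℤ) < 3 * (s j : ℤ) - n + s i ∧
        3 * (s j : ℤ) - n + s i ≤ 2 ^ t) ∨
      (2 * s i ≤ 2 ^ t ∧ -2 * (2 ^ t : ℤ) < 3 * (s j : ℤ) - n + s i ∧
        3 * (s j : ℤ) - n + s i < 2 * 2 ^ t))

lemma fin3_cases {i j k : Fin 3} (hij : i ≠ j) (hik : i ≠ k) (hjk : j ≠ k) (l : Fin 3) :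
    l = i ∨ l = j ∨ l = k := by
  revert i j k l
  decide

lemma not_pourable (n : ℕ) (p : ℕ) : ∀ (t : ℕ) (s : Fin 3 → ℕ), (∀ i, 0 < s i) → Inv n t s →
    6 * 2 ^ (t + p) ≤ 2 * n → ¬ Pourable p s := by
  induction p with
  | zero =>
    rintro t s hpos - - ⟨i, hi⟩
    exact absurd hi (hpos i).ne'
  | succ p ih =>
    rintro t s hpos ⟨i, j, k, hij, hik, hjk, hsum, hinv⟩ hn hp
    rcases hp with ⟨l, hl⟩ | ⟨s', ⟨a, b, hab, hle, rfl⟩, hp⟩
    · exact absurd hl (hpos l).ne'
    have hT : 6 * 2 ^ t ≤ n := by
      have h1 : 2 ^ (t + 1) ≤ 2 ^ (t + (p + 1)) := Nat.pow_le_pow_right (by norm_num) (by omega)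
      rw [pow_succ] at h1
      omega
    have hTz : (6 : ℤ) * 2 ^ t ≤ n := by exact_mod_cast hT
    have hpi := hpos i
    have hpj := hpos j
    have hpk := hpos k
    have hsumz : (s i : ℤ) + s j + s k = n := by exact_mod_cast hsum
    have hTpos : (0 : ℤ) < 2 ^ t := by positivity
    have hxy : s i < s j := by
      rcases hinv with ⟨h1, h2, h3⟩ | ⟨h1, h2, h3⟩
      · have h1z : (s i : ℤ) = 2 ^ t := by exact_mod_cast h1
        have : (s i : ℤ) < s j := by linarith
        exact_mod_cast this
      · have h1z : 2 * (s i : ℤ) ≤ 2 ^ t := by exact_mod_cast h1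
        have : (s i : ℤ) < s j := by linarith
        exact_mod_cast this
    have hyz : s j < s k := by
      rcases hinv with ⟨h1, h2, h3⟩ | ⟨h1, h2, h3⟩
      · have h1z : (s i : ℤ) = 2 ^ t := by exact_mod_cast h1
        have : (s j : ℤ) < s k := by linarith
        exact_mod_cast this
      · have h1z : 2 * (s i : ℤ) ≤ 2 ^ t := by exact_mod_cast h1
        have : (s j : ℤ) < s k := by linarith
        exact_mod_cast this
    have hn' : 6 * 2 ^ (t + 1 + p) ≤ 2 * n := by
      rw [show t + 1 + p = t + (p + 1) by ring]; exact hn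
    -- positivity after a step
    have hab' : s a < s b := by
      rcases fin3_cases hij hik hjk a with rfl | rfl | rfl <;>
        rcases fin3_cases hij hik hjk b with rfl | rfl | rfl <;> omega
    have hpos' : ∀ l, 0 < Function.update (Function.update s a (2 * s a)) b (s b - s a) l := by
      intro l
      by_cases h1 : l = b
      · subst h1; rw [Function.update_self]; omega
      · by_cases h2 : l = a
        · subst h2; rw [Function.update_of_ne h1, Function.update_self]
          have := hpos l; omega
        · rw [Function.update_of_ne h1, Function.update_of_ne h2]; exact hpos l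
    refine ih (t + 1) _ hpos' ?_ hn' hp
    have p2 : (2 : ℤ) ^ (t + 1) = 2 * 2 ^ t := by rw [pow_succ]; ring
    have p2n : (2 : ℕ) ^ (t + 1) = 2 * 2 ^ t := by rw [pow_succ]; ring
    rcases fin3_cases hij hik hjk a with rfl | rfl | rfl
    · rcases fin3_cases hij hik hjk b with rfl | rfl | rfl
      · exact absurd rfl hab
      · -- x from y
        refine ⟨a, b, k, hij, hik, hjk, ?_, ?_⟩
        · rw [Function.update_self, Function.update_of_ne hij, Function.update_self,
            Function.update_of_ne hjk.symm, Function.update_of_ne hik.symm]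
          omega
        · rw [Function.update_self, Function.update_of_ne hij, Function.update_self]
          rw [Nat.cast_sub hxy.le, p2]
          push_cast
          rcases hinv with ⟨h1, h2, h3⟩ | ⟨h1, h2, h3⟩
          · left
            have h1z : (s a : ℤ) = 2 ^ t := by exact_mod_cast h1
            exact ⟨by omega, by linarith, by linarith⟩
          · right
            have h1z : 2 * (s a : ℤ) ≤ 2 ^ t := by exact_mod_cast h1
            have h0z : (0 : ℤ) < s a := by exact_mod_cast hpi
            exact ⟨by omega, by linarith, by linarith⟩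
      · -- x from z
        refine ⟨a, j, b, hij, hik, hjk, ?_, ?_⟩
        · rw [Function.update_self, Function.update_of_ne hik, Function.update_self,
            Function.update_of_ne hjk, Function.update_of_ne hij.symm]
          omega
        · rw [Function.update_of_ne hik, Function.update_self,
            Function.update_of_ne hjk, Function.update_of_ne hij.symm, p2]
          push_cast
          rcases hinv with ⟨h1, h2, h3⟩ | ⟨h1, h2, h3⟩
          · left
            have h1z : (s a : ℤ) = 2 ^ t := by exact_mod_cast h1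
            exact ⟨by omega, by linarith, by linarith⟩
          · right
            have h1z : 2 * (s a : ℤ) ≤ 2 ^ t := by exact_mod_cast h1
            have h0z : (0 : ℤ) < s a := by exact_mod_cast hpi
            exact ⟨by omega, by linarith, by linarith⟩
    · rcases fin3_cases hij hik hjk b with rfl | rfl | rfl
      · omega
      · exact absurd rfl hab
      · -- y from z
        refine ⟨i, b, a, hik, hij, hjk.symm, ?_, ?_⟩
        · rw [Function.update_self, Function.update_of_ne hik, Function.update_of_ne hij,
            Function.update_of_ne hjk, Function.update_self]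
          omega
        · rw [Function.update_self, Function.update_of_ne hik, Function.update_of_ne hij,
            Nat.cast_sub hyz.le, p2]
          rcases hinv with ⟨h1, h2, h3⟩ | ⟨h1, h2, h3⟩
          · right
            have h1z : (s i : ℤ) = 2 ^ t := by exact_mod_cast h1
            exact ⟨by omega, by linarith, by linarith⟩
          · right
            have h1z : 2 * (s i : ℤ) ≤ 2 ^ t := by exact_mod_cast h1
            exact ⟨by omega, by linarith, by linarith⟩
    · rcases fin3_cases hij hik hjk b with rfl | rfl | rfl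
      · omega
      · omega
      · exact absurd rfl hab

lemma upper {N n : ℕ} (hN : 1 ≤ N) (hn : 6 * 2 ^ (N - 1) ≤ n) : n ∉ Good N := by
  rintro ⟨-, hg⟩
  have h1 : 1 ≤ 2 ^ (N - 1) := Nat.one_le_two_pow
  have h6 : 6 ≤ n := by omega
  obtain ⟨M, rfl⟩ : ∃ M, N = M + 1 := ⟨N - 1, by omega⟩
  rw [Nat.add_sub_cancel] at hn
  -- choose b with 3 b - n + 1 in {-1, 0, 1}
  obtain ⟨b, c, hb, hc, hsum, hl, hu⟩ : ∃ b c : ℕ, 0 < b ∧ 0 < c ∧ 1 + b + c = n ∧
      (-1 : ℤ) ≤ 3 * b - n + 1 ∧ 3 * (b : ℤ) - n + 1 ≤ 1 := by
    refine ⟨n / 3, n - 1 - n / 3, by omega, by omega, by omega, by omega, by omega⟩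
  have hs : ∀ i : Fin 3, 0 < (![1, b, c] : Fin 3 → ℕ) i := by
    intro i
    fin_cases i
    · simp
    · simpa using hb
    · simpa using hc
  refine not_pourable n (M + 1) 0 ![1, b, c] hs ?_ ?_ (hg _ hs (by simpa using hsum))
  · refine ⟨0, 1, 2, by decide, by decide, by decide, by simpa using hsum, Or.inl ⟨by simp, ?_, ?_⟩⟩
    · simp
      omega
    · simp
      omega
  · rw [zero_add, pow_succ]
    omega

/-- **Main result.**  For every `N ≥ 1`, `h(N,3)` is well defined (it is the greatest element of
the set of good totals) and `5 * 2^(N-1) ≤ h(N,3) < 6 * 2^(N-1)`. -/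
theorem result : ∀ N : ℕ, 1 ≤ N →
    IsGreatest (Good N) (h N) ∧ 5 * 2 ^ (N - 1) ≤ h N ∧ h N < 6 * 2 ^ (N - 1) := by
  intro N hN
  have hbd : ∀ n ∈ Good N, n < 6 * 2 ^ (N - 1) := by
    intro n hn
    by_contra hc
    exact upper hN (by omega) hn
  have hmem : 5 * 2 ^ (N - 1) ∈ Good N := by
    refine ⟨by positivity, fun s _ hs => ?_⟩
    have := lower (N - 1) s hs
    rwa [Nat.sub_add_cancel hN] at this
  have hba : BddAbove (Good N) := ⟨6 * 2 ^ (N - 1), fun n hn => (hbd n hn).le⟩
  have hin : h N ∈ Good N := Nat.sSup_mem ⟨_, hmem⟩ hba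
  exact ⟨⟨hin, fun n hn => le_csSup hba hn⟩, le_csSup hba hmem, hbd _ hin⟩

end Pool.Agent.Results.MP_4ebd9a_co.WithinSixFifths
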